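import Pool.Agent.ASE.Stmts7
import Pool.Agent.Helper90_ASO.CPG

/-!
# Row CPX of squad ASE: the difference of the main parts
-/

set_option autoImplicit false

open scoped BigOperators

noncomputable section

namespace Pool.Agent.PP.SE.H81

open Pool.Agent.Helper51_AWC Pool.Agent.Helper79_WRA Pool.Agent.PP Pool.Agent.PP.KF
open Pool.Agent.PP.K9 Pool.Agent.PP.K9.H97 Pool.Agent.PP.H75 Pool.Agent.PP.T3 Pool.Agent.PP.SO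
open Pool.Agent.PP.SD Pool.Agent.PP.SE

attribute [local instance] Ideal.Quotient.field

theorem lf_lift {V₀ : Type} [CommGroup V₀] {ℓ : ℕ} [Fact ℓ.Prime] (ρ : V₀ → ZMod ℓ) (v₀ : V₀) :
    Lf ρ (lf ρ v₀) := by
  intro v
  refine ⟨?_, fun h => ?_⟩
  · unfold lf
    split_ifs
    · push_cast
      rw [ZMod.natCast_zmod_val, ZMod.natCast_self, add_zero]
    · push_cast
      rw [ZMod.natCast_zmod_val, add_zero]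
  · unfold lf
    rw [h, if_neg (fun h' => h'.2 rfl)]
    simp

theorem cpx (hRte : RteStmt) (hFie : FieStmt) (hPpc : SE.PpcStmt) : CpxStmt := by
  intro ℓ _ M _ hM h2 V₀ G _ _ _ _ E₀ hFq B hSd D hRs r hr hPE
  obtain ⟨n, hn⟩ : ∃ n, n = ℓ ^ r := ⟨_, rfl⟩
  have hnr : ∃ r, 0 < r ∧ n = ℓ ^ r := ⟨r, hr, hn⟩
  rw [← hn] at hPE
  obtain ⟨m, hm⟩ := hPE
  have key : ∀ t : (V₀ → ZMod ℓ) × (V₀ → ZMod ℓ) × V₀ × V₀ × V₀, ∃ K₀ : ℕ,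
      Hm t.1 → Hm t.2.1 → t.2.2.2.1 ≠ 1 → t.2.2.2.2 ≠ 1 → ∀ K, K₀ ≤ K →
      ∀ (G' : Type) [Group G'] [Finite G'] (B' : Bk (FF M) V₀ G') (D' : Rd V₀ G'),
      Sd ℓ M E₀ B' → Rs ℓ E₀ B' D' → (∃ m, PE ℓ n m G') →
      (∀ W, W ≠ ⊥ → ∃ q ∈ SOR.Rl ℓ, D.U W - D'.U W = ℓ ^ K * q) →
      (∀ W, W ≠ ⊥ → ∀ g ∈ E₀, mp g W = W → D'.fx W g = D.fx W g) →
      MNE ℓ E₀ B D (lf t.1 t.2.2.1) (lf t.2.1 1) t.2.2.2.1 t.2.2.2.2 -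
        MNE ℓ E₀ B' D' (lf t.1 t.2.2.1) (lf t.2.1 1) t.2.2.2.1 t.2.2.2.2 ∈ RM M := by
    rintro ⟨ρ₁, ρ₂, v₀, c, d⟩
    dsimp only
    by_cases h1 : Hm ρ₁
    swap
    · exact ⟨0, fun h => absurd h h1⟩
    by_cases h3 : Hm ρ₂
    swap
    · exact ⟨0, fun _ h => absurd h h3⟩
    have l1 := lf_lift ρ₁ v₀
    have l2 := lf_lift ρ₂ (1 : V₀)
    obtain ⟨F₁₃, Ψ, M₁, M₂, Kf, hFE, hRel⟩ := hRte ℓ V₀ hFq.ex n ρ₁ ρ₂ hnr h1 h3 _ _ l1 l2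
    obtain ⟨K₀, hK₀⟩ := hPpc ℓ V₀ E₀ n c d D.fx F₁₃
      (F12 ℓ (lf ρ₁ v₀) (lf ρ₂ 1) Ψ M₁ M₂ Kf c d)
    refine ⟨K₀, fun _ _ hc hd K hK G' _ _ B' D' hSd' hRs' hPE' hU hfx => ?_⟩
    obtain ⟨m', hm'⟩ := hPE'
    have e1 := hFie ℓ M hM h2 V₀ G E₀ hFq B hSd D hRs n m hm ρ₁ ρ₂ _ _ h1 h3 l1 l2 F₁₃ Ψ M₁ M₂ Kf
      hFE (fun kc kd => hRel kc kd G m B.i hSd.inj hm) c d hc hd
    have e2 := hFie ℓ M hM h2 V₀ G' E₀ hFq B' hSd' D' hRs' n m' hm' ρ₁ ρ₂ _ _ h1 h3 l1 l2 F₁₃ Ψ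
      M₁ M₂ Kf hFE (fun kc kd => hRel kc kd G' m' B'.i hSd'.inj hm') c d hc hd
    have e3 := SO.H90.rl_rm (M := M) hM (hK₀ K hK D.U D'.U hRs.u1 hRs'.u1 hU D'.fx hfx)
    have e4 := sub_mem (sub_mem e1 e2) e3
    have e5 : ∀ a b c' d' : ℂ, ∀ p q : ℚ, c' = (p : ℂ) → d' = (q : ℂ) →
        a + c' - (b + d') - ((p - q : ℚ) : ℂ) = a - b := by
      intro a b c' d' p q hp hq
      rw [hp, hq]
      push_cast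
      ring
    rw [e5 _ _ _ _ _ _ rfl rfl] at e4
    exact e4
  choose K₀ hK₀ using key
  obtain ⟨K, hK⟩ := Finite.exists_le K₀
  refine ⟨max 2 K, le_max_left _ _, ?_⟩
  intro G' _ _ B' D' hSd' hRs' hPE' hU hfx ρ₁ ρ₂ h1 h3 v₀ c d hc hd
  rw [← hn] at hPE'
  exact hK₀ (ρ₁, ρ₂, v₀, c, d) h1 h3 hc hd (max 2 K)
    ((hK _).trans (le_max_right _ _)) G' B' D' hSd' hRs' hPE' hU hfx

end Pool.Agent.PP.SE.H81
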