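import Pool.Agent.ASE.Stmts3

/-!
# Row HYE of squad ASE: `HY` at `κ et`
-/

set_option autoImplicit false

open scoped BigOperators

noncomputable section

namespace Pool.Agent.PP.SE.H81

open Pool.Agent.Helper51_AWC Pool.Agent.Helper79_WRA Pool.Agent.PP Pool.Agent.PP.KF
open Pool.Agent.PP.K9 Pool.Agent.PP.K9.H97 Pool.Agent.PP.H75 Pool.Agent.PP.T3 Pool.Agent.PP.SO
open Pool.Agent.PP.SD Pool.Agent.PP.SE

attribute [local instance] Ideal.Quotient.field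

theorem p1_LT {V₀ : Type} [CommGroup V₀] (T : Set (V₀ × ℕ)) :
    p1 (LT T) = Subgroup.closure {α | ∃ t ∈ T, t.1 = α} := by
  unfold p1 LT
  congr 1
  ext p
  constructor
  · rintro ⟨s, ⟨t, ht, rfl⟩, rfl⟩
    exact ⟨t, ht, rfl⟩
  · rintro ⟨t, ht, rfl⟩
    exact ⟨_, ⟨t, ht, rfl⟩, rfl⟩

theorem p2_LT {V₀ : Type} [CommGroup V₀] (T : Set (V₀ × ℕ)) :
    p2 (LT T) = Subgroup.closure {α | ∃ t ∈ T, t.1 = α} := by
  unfold p2 LT
  congr 1
  ext p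
  constructor
  · rintro ⟨s, ⟨t, ht, rfl⟩, rfl⟩
    exact ⟨t, ht, rfl⟩
  · rintro ⟨t, ht, rfl⟩
    exact ⟨_, ⟨t, ht, rfl⟩, rfl⟩

theorem hye (hyc : HycStmt) (sle : SleStmt) (czb : CzbStmt) (acb : AcbStmt) : HyeStmt := by
  intro ℓ _ M _ hM hl V₀ G _ _ _ _ E₀ hF B hSd D hD n m hPE A hA κ hκ T hT
  classical
  have hSb := hSd.toSb
  have hA0 : A ≠ ⊥ := by
    rintro rfl
    have h1 := hA.1
    rw [Subgroup.card_bot] at h1
    exact (Nat.Prime.one_lt (Fact.out : ℓ.Prime)).ne h1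
  obtain ⟨-, -, hz3, -, -, -, hz7, hfin⟩ := czb ℓ M hM hl V₀ G E₀ hF B hSb A
  have hcz := hD.e1 A hA0
  obtain ⟨hczk, hcvk⟩ := hz3 _ hcz κ hκ
  have h1 := p1_LT T
  have h2 := p2_LT T
  rw [hT] at h1 h2
  have hC : ((Nat.card (B.C A) : ℕ) : ℂ) ≠ 0 := by
    exact_mod_cast Nat.card_pos.ne'
  have hQ : (QL E₀ (LT T)).Finite := Set.toFinite _
  have hS : ∀ χ ∈ Ch B A, starRingEnd ℂ (SL B m (LT T) χ χ) =
      (Nat.card (B.C A) : ℂ) * Nat.card (B.C A) *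
      (((ℓ : ℂ) ^ 2 * nS E₀ A * nS E₀ A)⁻¹ * ∑ w ∈ hQ.toFinset,
        starRingEnd ℂ (D.D A χ w.2) * D.D A χ (w.1 w.2) +
      (nS E₀ A : ℂ)⁻¹ * ∑ w ∈ hQ.toFinset, if mp w.1 A = A ∧ w.2 ∈ A then
        nu B χ (w.1 w.2 * w.2⁻¹) * D.R A χ (ac B w.1⁻¹ χ) else 0) := by
    intro χ hχ
    have h3 := sle ℓ M hM hl V₀ G E₀ hF B hSd D hD n m hPE (LT T) (by rw [h1]; exact hA0)
      (by rw [h2]; exact hA0) χ (by rw [h1]; exact hχ) χ (by rw [h2]; exact hχ)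
    rw [h1, h2] at h3
    rw [h3, finsum_mem_eq_finite_toFinset_sum _ hQ,
      finsum_mem_eq_finite_toFinset_sum _ (Set.toFinite _)]
    simp only [map_mul, map_add, map_inv₀, map_pow, map_sum, Complex.conj_natCast, Complex.conj_conj]
    congr 2
    congr 1
    rw [← Finset.sum_filter]
    refine Finset.sum_congr ?_ ?_
    · ext w
      simp only [Set.Finite.mem_toFinset, Set.mem_ofPred_eq, Finset.mem_filter]
      constructor
      · rintro ⟨a, -, b, c⟩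
        exact ⟨a, b, c⟩
      · rintro ⟨a, b, c⟩
        exact ⟨a, hA.1, b, c⟩
    · intro w hw
      simp only [Finset.mem_filter, Set.Finite.mem_toFinset] at hw
      obtain ⟨hw1, hw2, hw3⟩ := hw
      obtain ⟨-, -, h7⟩ := hz7 χ hχ
      have hty : w.1 w.2 ∈ A := by
        have h4 : w.1 w.2 ∈ mp w.1 A := ⟨w.2, hw3, rfl⟩
        rw [hw2] at h4
        exact h4
      have hE : w.1 ∈ E₀ := hw1.1
      have hAC := (acb ℓ M hM hl V₀ G E₀ hF B hSb).2 A w.1⁻¹ (E₀.inv_mem hE)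
      have hmp : mp w.1⁻¹ A = A := by
        conv_lhs => rw [← hw2]
        ext v
        constructor
        · rintro ⟨v', ⟨v'', hv'', rfl⟩, rfl⟩
          have h5 : (w.1⁻¹ : MulAut V₀) (w.1 v'') = v'' := by
            rw [← MulAut.mul_apply, inv_mul_cancel]
            rfl
          show (w.1⁻¹ : MulAut V₀) (w.1 v'') ∈ A
          rw [h5]
          exact hv''
        · intro hv
          refine ⟨w.1 v, ⟨v, hv, rfl⟩, ?_⟩
          show (w.1⁻¹ : MulAut V₀) (w.1 v) = v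
          rw [← MulAut.mul_apply, inv_mul_cancel]
          rfl
      have hac : ac B w.1⁻¹ χ ∈ Ch B A := by
        have h5 := (hAC.2.2.1 χ hχ).1
        rw [hmp] at h5
        exact h5
      have hr := ((hD.d6 A hA0 _ hac).2 χ hχ).2
      rw [hr]
      have h8 := h7.1 w.2 hw3
      have h9 := (h7.1 (w.1 w.2) hty).2.2 w.2⁻¹ (A.inv_mem hw3)
      rw [h8.1, h9]
      ring
  rw [hyc ℓ M hM hl V₀ G E₀ hF B hSb n m hPE A _ T hczk hT]
  rw [finsum_mem_eq_finite_toFinset_sum _ hfin, finsum_mem_eq_finite_toFinset_sum _ hQ]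
  have h4 : ∀ χ ∈ hfin.toFinset, cv (tk B κ (D.et A)) χ * starRingEnd ℂ (SL B m (LT T) χ χ) =
      (Nat.card (B.C A) : ℂ) ^ 2 * ∑ w ∈ hQ.toFinset,
        (((ℓ : ℂ) ^ 2 * (nS E₀ A : ℂ) ^ 2)⁻¹ * (nu B χ κ * cv (D.et A) χ *
          (starRingEnd ℂ (D.D A χ w.2) * D.D A χ (w.1 w.2))) +
        if mp w.1 A = A ∧ w.2 ∈ A then (nS E₀ A : ℂ)⁻¹ * (nu B χ κ * cv (D.et A) χ *
          (nu B χ (w.1 w.2 * w.2⁻¹) * D.R A χ (ac B w.1⁻¹ χ))) else 0) := by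
    intro χ hχ
    rw [Set.Finite.mem_toFinset] at hχ
    rw [hS χ hχ, hcvk χ hχ, Finset.sum_add_distrib, ← Finset.mul_sum, ← Finset.mul_sum]
    have h5 : ∀ w : MulAut V₀ × V₀, (if mp w.1 A = A ∧ w.2 ∈ A then (nS E₀ A : ℂ)⁻¹ *
        (nu B χ κ * cv (D.et A) χ *
          (nu B χ (w.1 w.2 * w.2⁻¹) * D.R A χ (ac B w.1⁻¹ χ))) else 0) =
        ((nS E₀ A : ℂ)⁻¹ * (nu B χ κ * cv (D.et A) χ)) * (if mp w.1 A = A ∧ w.2 ∈ A then
          nu B χ (w.1 w.2 * w.2⁻¹) * D.R A χ (ac B w.1⁻¹ χ) else 0) := by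
      intro w
      split_ifs
      · ring
      · ring
    simp only [h5]
    rw [← Finset.mul_sum]
    have h6 : ((ℓ : ℂ) ^ 2 * nS E₀ A * nS E₀ A)⁻¹ = ((ℓ : ℂ) ^ 2 * (nS E₀ A : ℂ) ^ 2)⁻¹ := by
      congr 1
      ring
    rw [h6]
    ring
  rw [Finset.sum_congr rfl h4, ← Finset.mul_sum, Finset.sum_comm, ← mul_assoc]
  have h7 : (Nat.card (B.C A) : ℂ)⁻¹ ^ 2 * (Nat.card (B.C A) : ℂ) ^ 2 = 1 := by
    rw [← mul_pow, inv_mul_cancel₀ hC, one_pow]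
  rw [h7, one_mul]
  refine Finset.sum_congr rfl fun w _ => ?_
  rw [Finset.sum_add_distrib, ← Finset.mul_sum]
  unfold wtE
  rw [finsum_mem_eq_finite_toFinset_sum _ hfin]
  congr 1
  split_ifs
  · rw [finsum_mem_eq_finite_toFinset_sum _ hfin, ← Finset.mul_sum]
  · simp

end Pool.Agent.PP.SE.H81
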