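import Pool.Agent.Helper81_ASE.HYE

/-!
# Row X3R of squad ASE: the value of `X13`
-/

set_option autoImplicit false

open scoped BigOperators

noncomputable section

namespace Pool.Agent.PP.SE.H81

open Pool.Agent.Helper51_AWC Pool.Agent.Helper79_WRA Pool.Agent.PP Pool.Agent.PP.KF
open Pool.Agent.PP.K9 Pool.Agent.PP.K9.H97 Pool.Agent.PP.H75 Pool.Agent.PP.T3 Pool.Agent.PP.SO
open Pool.Agent.PP.SD Pool.Agent.PP.SE

attribute [local instance] Ideal.Quotient.field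

/-! ## Sums -/

section sums
variable {ι ι' κ κ' : Type*}

theorem swap4 (X : Finset ι) (X' : Finset ι') (Q : Finset κ) (Q' : Finset κ')
    (t : ι → ι' → κ → κ' → ℂ) :
    ∑ i ∈ X, ∑ i' ∈ X', ∑ w ∈ Q, ∑ w' ∈ Q', t i i' w w' =
      ∑ w ∈ Q, ∑ w' ∈ Q', ∑ i' ∈ X', ∑ i ∈ X, t i i' w w' := by
  have h1 : ∀ i ∈ X, ∑ i' ∈ X', ∑ w ∈ Q, ∑ w' ∈ Q', t i i' w w' =
      ∑ w ∈ Q, ∑ w' ∈ Q', ∑ i' ∈ X', t i i' w w' := by
    intro i _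
    rw [Finset.sum_comm]
    exact Finset.sum_congr rfl fun w _ => Finset.sum_comm
  rw [Finset.sum_congr rfl h1, Finset.sum_comm]
  refine Finset.sum_congr rfl fun w _ => ?_
  rw [Finset.sum_comm]
  exact Finset.sum_congr rfl fun w' _ => Finset.sum_comm

theorem term4 (k : ℂ) (X : Finset ι) (X' : Finset ι') (Q : Finset κ) (Q' : Finset κ')
    (α : ι → ℂ) (β : ι' → ℂ) (s : ι → ι' → κ → ℂ) (s' : ι → ι' → κ' → ℂ) :
    ∑ i ∈ X, ∑ i' ∈ X', α i * β i' * (k * ((∑ w ∈ Q, s i i' w) * (∑ w' ∈ Q', s' i i' w'))) =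
      k * ∑ w ∈ Q, ∑ w' ∈ Q', ∑ i' ∈ X', ∑ i ∈ X, α i * β i' * (s i i' w * s' i i' w') := by
  have h := swap4 X X' Q Q' (fun i i' w w' => k * (α i * β i' * (s i i' w * s' i i' w')))
  simp only [← Finset.mul_sum] at h
  refine Eq.trans ?_ h
  rw [Finset.mul_sum]
  refine Finset.sum_congr rfl fun i _ => ?_
  rw [Finset.mul_sum]
  refine Finset.sum_congr rfl fun i' _ => ?_
  rw [Finset.sum_mul]
  ring

end sums

section bas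
variable {V₀ : Type} [CommGroup V₀] {n : ℕ}

theorem p1_Lm (L : Set (SO.SS n V₀)) : p1 (Lm L) = pL L := by
  unfold p1 Lm pL
  congr 1
  ext p
  constructor
  · rintro ⟨s, ⟨t, ht, rfl⟩, rfl⟩
    exact ⟨t, ht, rfl⟩
  · rintro ⟨t, ht, rfl⟩
    exact ⟨_, ⟨t, ht, rfl⟩, rfl⟩

theorem p2_Lm (L : Set (SO.SS n V₀)) : p2 (Lm L) = qL L := by
  unfold p2 Lm qL
  congr 1
  ext p
  constructor
  · rintro ⟨s, ⟨t, ht, rfl⟩, rfl⟩
    exact ⟨t, ht, rfl⟩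
  · rintro ⟨t, ht, rfl⟩
    exact ⟨_, ⟨t, ht, rfl⟩, rfl⟩

theorem p1_Lq (L : Set (SO.SS n V₀)) : p1 (Lq L) = pL L := by
  unfold p1 Lq pL
  congr 1
  ext p
  constructor
  · rintro ⟨s, ⟨t, ht, rfl⟩, rfl⟩
    exact ⟨t, ht, rfl⟩
  · rintro ⟨t, ht, rfl⟩
    exact ⟨_, ⟨t, ht, rfl⟩, rfl⟩

theorem p2_Lq (L : Set (SO.SS n V₀)) : p2 (Lq L) = qL L := by
  unfold p2 Lq qL
  congr 1
  ext p
  constructor
  · rintro ⟨s, ⟨t, ht, rfl⟩, rfl⟩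
    exact ⟨t, ht, rfl⟩
  · rintro ⟨t, ht, rfl⟩
    exact ⟨_, ⟨t, ht, rfl⟩, rfl⟩

theorem mp_inv {σ : MulAut V₀} {W W' : Subgroup V₀} (h : mp σ W = W') : mp σ⁻¹ W' = W := by
  rw [← h]
  ext v
  constructor
  · rintro ⟨v', ⟨v'', hv'', rfl⟩, rfl⟩
    have h5 : (σ⁻¹ : MulAut V₀) (σ v'') = v'' := by
      rw [← MulAut.mul_apply, inv_mul_cancel]
      rfl
    show (σ⁻¹ : MulAut V₀) (σ v'') ∈ W
    rw [h5]
    exact hv''
  · intro hv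
    refine ⟨σ v, ⟨v, hv, rfl⟩, ?_⟩
    show (σ⁻¹ : MulAut V₀) (σ v) = v
    rw [← MulAut.mul_apply, inv_mul_cancel]
    rfl

theorem mp_mul (σ τ : MulAut V₀) (W : Subgroup V₀) : mp (σ * τ) W = mp σ (mp τ W) := by
  ext v
  constructor
  · rintro ⟨v', hv', rfl⟩
    exact ⟨τ v', ⟨v', hv', rfl⟩, rfl⟩
  · rintro ⟨v', ⟨v'', hv'', rfl⟩, rfl⟩
    exact ⟨v'', hv'', rfl⟩

theorem mem_mp {σ : MulAut V₀} {W W' : Subgroup V₀} (h : mp σ W = W') {v : V₀} (hv : v ∈ W) :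
    σ v ∈ W' := by
  rw [← h]
  exact ⟨v, hv, rfl⟩

end bas

section cnt
variable {V₀ : Type} [CommGroup V₀] [Finite V₀] {n : ℕ}

/-- the number of CN3 as a double sum -/
theorem cnt3 (cn3 : Cn3Stmt) (E₀ : Subgroup (MulAut V₀)) (c d : V₀) (L : Set (SO.SS n V₀))
    (Q Q' : Finset (MulAut V₀ × V₀)) (hQ : ∀ w, w ∈ Q ↔ w ∈ QL E₀ (Lm L))
    (hQ' : ∀ w, w ∈ Q' ↔ w ∈ QL E₀ (Lq L)) :
    ∑ w ∈ Q, ∑ w' ∈ Q', (({z : St E₀ (pL L) × St E₀ (pL L) |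
        w'.2 = (z.2 : MulAut V₀) (w.2 * (z.1 : MulAut V₀) c)}.ncard : ℂ) *
      ({z : St E₀ (qL L) × St E₀ (qL L) |
        w.1 w.2 = (z.2 : MulAut V₀) (w'.1 w'.2 * (z.1 : MulAut V₀) d)}.ncard : ℂ)) =
      (nS E₀ (pL L) : ℂ) ^ 2 * (nS E₀ (qL L) : ℂ) ^ 2 * N13 E₀ c d L := by
  classical
  let _ : Fintype V₀ := Fintype.ofFinite V₀
  let _ : Fintype (MulAut V₀) := Fintype.ofFinite _
  let _ : Fintype (St E₀ (pL L)) := Fintype.ofFinite _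
  let _ : Fintype (St E₀ (qL L)) := Fintype.ofFinite _
  have key : ∀ {T : Type} [Fintype T] (S : Set T), (S.ncard : ℂ) = ∑ x : T, if x ∈ S then 1 else 0 := by
    intro T _ S
    rw [Finset.sum_boole, Set.ncard_eq_toFinset_card']
    congr 2
    ext x
    simp
  have h := cn3 V₀ E₀ n c d L
  have h1 := congrArg (fun k : ℕ => (k : ℂ)) h
  simp only [Nat.cast_mul, Nat.cast_pow] at h1
  rw [← h1, key, Fintype.sum_prod_type]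
  simp only [key]
  rw [Fintype.sum_prod_type]
  have hsum : ∀ (F : MulAut V₀ × V₀ → MulAut V₀ × V₀ → ℂ), ∑ w ∈ Q, ∑ w' ∈ Q', F w w' =
      ∑ w, ∑ w', if (w ∈ QL E₀ (Lm L) ∧ w' ∈ QL E₀ (Lq L)) then F w w' else 0 := by
    intro F
    rw [← Finset.sum_subset (Finset.subset_univ Q)]
    · refine Finset.sum_congr rfl fun w hw => ?_
      rw [← Finset.sum_subset (Finset.subset_univ Q')]
      · refine Finset.sum_congr rfl fun w' hw' => ?_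
        rw [if_pos ⟨(hQ w).1 hw, (hQ' w').1 hw'⟩]
      · intro w' _ hw'
        rw [if_neg (fun h => hw' ((hQ' w').2 h.2))]
    · intro w _ hw
      refine Finset.sum_eq_zero fun w' _ => ?_
      rw [if_neg (fun h => hw ((hQ w).2 h.1))]
  rw [hsum]
  refine Finset.sum_congr rfl fun w _ => Finset.sum_congr rfl fun w' _ => ?_
  rw [Finset.sum_mul_sum]
  conv_rhs => rw [Fintype.sum_prod_type]
  split_ifs with hw
  · refine Finset.sum_congr rfl fun z _ => Finset.sum_congr rfl fun z' _ => ?_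
    simp only [Set.mem_ofPred_eq, hw.1, hw.2, true_and]
    by_cases h3 : w'.2 = (z.2 : MulAut V₀) (w.2 * (z.1 : MulAut V₀) c)
    · by_cases h4 : w.1 w.2 = (z'.2 : MulAut V₀) (w'.1 w'.2 * (z'.1 : MulAut V₀) d)
      · rw [if_pos h3, if_pos h4, if_pos ⟨h3, h4⟩, one_mul]
      · rw [if_neg h4, mul_zero, if_neg (fun h => h4 h.2)]
    · rw [if_neg h3, zero_mul, if_neg (fun h => h3 h.1)]
  · symm
    refine Finset.sum_eq_zero fun z _ => Finset.sum_eq_zero fun z' _ => ?_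
    rw [if_neg]
    rintro ⟨ha, hb, -⟩
    exact hw ⟨ha, hb⟩

end cnt

theorem x3r (x3c : X3cStmt) (sle : SleStmt) (cn3 : Cn3Stmt) (x3s : X3sStmt) (fmb : FmbStmt)
    (acb : AcbStmt) (prb : PrbStmt) (czb : CzbStmt) : X3rStmt := by
  intro ℓ _ M _ hM hl V₀ G _ _ _ _ E₀ hF B hSd D hD n m hPE c d L hp hq
  classical
  have hSb := hSd.toSb
  have F1 := fmb ℓ M hM hl V₀ G E₀ hF B hSb D hD (pL L) hp
  have F2 := fmb ℓ M hM hl V₀ G E₀ hF B hSb D hD (qL L) hq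
  have Z1 := czb ℓ M hM hl V₀ G E₀ hF B hSb (pL L)
  have Z2 := czb ℓ M hM hl V₀ G E₀ hF B hSb (qL L)
  obtain ⟨hact, AC⟩ := acb ℓ M hM hl V₀ G E₀ hF B hSb
  have P1 := prb ℓ V₀ E₀ hF (pL L)
  have P2 := prb ℓ V₀ E₀ hF (qL L)
  have S1 := x3s ℓ M hM hl V₀ G E₀ hF B hSb D hD (pL L) hp c
  have S2 := x3s ℓ M hM hl V₀ G E₀ hF B hSb D hD (qL L) hq d
  have hfin1 := Z1.2.2.2.2.2.2.2
  have hfin2 := Z2.2.2.2.2.2.2.2
  have hnu1 := Z1.2.2.2.2.2.2.1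
  have hnu2 := Z2.2.2.2.2.2.2.1
  have hC1 : ((Nat.card (B.C (pL L)) : ℕ) : ℂ) ≠ 0 := by
    exact_mod_cast Nat.card_pos.ne'
  have hC2 : ((Nat.card (B.C (qL L)) : ℕ) : ℂ) ≠ 0 := by
    exact_mod_cast Nat.card_pos.ne'
  have hn1 : ((nS E₀ (pL L) : ℕ) : ℂ) ≠ 0 := by
    exact_mod_cast (P1.2.2.2.2.2.2.2.1).2.1.ne'
  have hn2 : ((nS E₀ (qL L) : ℕ) : ℂ) ≠ 0 := by
    exact_mod_cast (P2.2.2.2.2.2.2.2.1).2.1.ne'
  have hℓ : ((ℓ : ℕ) : ℂ) ≠ 0 := by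
    exact_mod_cast (Fact.out : ℓ.Prime).ne_zero
  have hQm : (QL E₀ (Lm L)).Finite := Set.toFinite _
  have hQv : (QL E₀ (Lq L)).Finite := Set.toFinite _
  -- the finite sets
  obtain ⟨Qm, hQmd⟩ : ∃ Q : Finset (MulAut V₀ × V₀), Q = hQm.toFinset := ⟨_, rfl⟩
  obtain ⟨Qv, hQvd⟩ : ∃ Q : Finset (MulAut V₀ × V₀), Q = hQv.toFinset := ⟨_, rfl⟩
  have hmQm : ∀ w, w ∈ Qm ↔ w ∈ QL E₀ (Lm L) := fun w => by rw [hQmd, Set.Finite.mem_toFinset]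
  have hmQv : ∀ w, w ∈ Qv ↔ w ∈ QL E₀ (Lq L) := fun w => by rw [hQvd, Set.Finite.mem_toFinset]
  obtain ⟨Rm, hRm⟩ : ∃ Q : Finset (MulAut V₀ × V₀), Q = Qm.filter (fun w =>
    Nat.card (pL L) = ℓ ∧ mp w.1 (pL L) = qL L ∧ w.2 ∈ pL L) := ⟨_, rfl⟩
  obtain ⟨Rq, hRq⟩ : ∃ Q : Finset (MulAut V₀ × V₀), Q = Qv.filter (fun w =>
    Nat.card (pL L) = ℓ ∧ mp w.1 (pL L) = qL L ∧ w.2 ∈ pL L) := ⟨_, rfl⟩
  have hmRm : ∀ w, w ∈ Rm ↔ w ∈ QL E₀ (Lm L) ∧ Nat.card (pL L) = ℓ ∧ mp w.1 (pL L) = qL L ∧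
      w.2 ∈ pL L := fun w => by rw [hRm, Finset.mem_filter, hmQm]
  have hmRq : ∀ w, w ∈ Rq ↔ w ∈ QL E₀ (Lq L) ∧ Nat.card (pL L) = ℓ ∧ mp w.1 (pL L) = qL L ∧
      w.2 ∈ pL L := fun w => by rw [hRq, Finset.mem_filter, hmQv]
  obtain ⟨X1, hX1⟩ : ∃ Q : Finset (G → ℂ), Q = hfin1.toFinset := ⟨_, rfl⟩
  obtain ⟨X2, hX2⟩ : ∃ Q : Finset (G → ℂ), Q = hfin2.toFinset := ⟨_, rfl⟩
  have hmX1 : ∀ χ, χ ∈ X1 ↔ χ ∈ Ch B (pL L) := fun w => by rw [hX1, Set.Finite.mem_toFinset]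
  have hmX2 : ∀ χ, χ ∈ X2 ↔ χ ∈ Ch B (qL L) := fun w => by rw [hX2, Set.Finite.mem_toFinset]
  -- the conjugates of the characters of `W₂`
  have hac : ∀ σ ∈ E₀, mp σ (pL L) = qL L → ∀ χ' ∈ Ch B (qL L), ac B σ⁻¹ χ' ∈ Ch B (pL L) := by
    intro σ hσ hm χ' hχ'
    have h1 := ((AC (qL L) σ⁻¹ (E₀.inv_mem hσ)).2.2.1 χ' hχ').1
    rw [mp_inv hm] at h1
    exact h1
  have hSm : ∀ χ ∈ Ch B (pL L), ∀ χ' ∈ Ch B (qL L), SL B m (Lm L) χ χ' =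
      (Nat.card (B.C (pL L)) : ℂ) * Nat.card (B.C (qL L)) *
      (((ℓ : ℂ) ^ 2 * nS E₀ (pL L) * nS E₀ (qL L))⁻¹ * ∑ w ∈ Qm,
        D.D (pL L) χ w.2 * starRingEnd ℂ (D.D (qL L) χ' (w.1 w.2)) +
      (nS E₀ (pL L) : ℂ)⁻¹ * ∑ w ∈ Rm, nu B χ w.2 * starRingEnd ℂ (nu B χ' (w.1 w.2)) *
        D.R (pL L) χ (ac B w.1⁻¹ χ')) := by
    intro χ hχ χ' hχ'
    have h3 := sle ℓ M hM hl V₀ G E₀ hF B hSd D hD n m hPE (Lm L) (by rw [p1_Lm]; exact hp)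
      (by rw [p2_Lm]; exact hq) χ (by rw [p1_Lm]; exact hχ) χ' (by rw [p2_Lm]; exact hχ')
    rw [p1_Lm, p2_Lm] at h3
    rw [h3, finsum_mem_eq_finite_toFinset_sum _ hQm,
      finsum_mem_eq_finite_toFinset_sum _ (Set.toFinite _), ← hQmd]
    congr 2
    congr 1
    refine Finset.sum_congr ?_ fun _ _ => rfl
    ext w
    rw [Set.Finite.mem_toFinset, hmRm]
    exact Iff.rfl
  have hSq : ∀ χ ∈ Ch B (pL L), ∀ χ' ∈ Ch B (qL L), starRingEnd ℂ (SL B m (Lq L) χ χ') =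
      (Nat.card (B.C (pL L)) : ℂ) * Nat.card (B.C (qL L)) *
      (((ℓ : ℂ) ^ 2 * nS E₀ (pL L) * nS E₀ (qL L))⁻¹ * ∑ w ∈ Qv,
        starRingEnd ℂ (D.D (pL L) χ w.2) * D.D (qL L) χ' (w.1 w.2) +
      (nS E₀ (pL L) : ℂ)⁻¹ * ∑ w ∈ Rq, starRingEnd ℂ (nu B χ w.2) * nu B χ' (w.1 w.2) *
        D.R (pL L) χ (ac B w.1⁻¹ χ')) := by
    intro χ hχ χ' hχ'
    have h3 := sle ℓ M hM hl V₀ G E₀ hF B hSd D hD n m hPE (Lq L) (by rw [p1_Lq]; exact hp)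
      (by rw [p2_Lq]; exact hq) χ (by rw [p1_Lq]; exact hχ) χ' (by rw [p2_Lq]; exact hχ')
    rw [p1_Lq, p2_Lq] at h3
    rw [h3, finsum_mem_eq_finite_toFinset_sum _ hQv,
      finsum_mem_eq_finite_toFinset_sum _ (Set.toFinite _), ← hQvd]
    simp only [map_mul, map_add, map_inv₀, map_pow, map_sum, Complex.conj_natCast, Complex.conj_conj]
    congr 2
    congr 1
    refine Finset.sum_congr ?_ ?_
    · ext w
      rw [Set.Finite.mem_toFinset, hmRq]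
      exact Iff.rfl
    · intro w hw
      rw [hmRq] at hw
      obtain ⟨hw1, -, hw2, hw3⟩ := hw
      have hr := ((hD.d6 (pL L) hp _ (hac w.1 hw1.1 hw2 χ' hχ')).2 χ hχ).2
      rw [hr]
  -- the sum
  obtain ⟨α, hα⟩ : ∃ α : (G → ℂ) → ℂ, α = fun χ => cv (fm ℓ E₀ B D (pL L) c) χ := ⟨_, rfl⟩
  obtain ⟨β, hβ⟩ : ∃ β : (G → ℂ) → ℂ, β = fun χ => cv (fm ℓ E₀ B D (qL L) d) χ := ⟨_, rfl⟩
  obtain ⟨a₀, ha₀⟩ : ∃ a : ℂ, a = ((ℓ : ℂ) ^ 2 * nS E₀ (pL L) * nS E₀ (qL L))⁻¹ := ⟨_, rfl⟩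
  obtain ⟨b₀, hb₀⟩ : ∃ b : ℂ, b = (nS E₀ (pL L) : ℂ)⁻¹ := ⟨_, rfl⟩
  have hX := x3c ℓ M hM hl V₀ G E₀ hF B hSb n m hPE L (fun W => fm ℓ E₀ B D W c)
    (fun W => fm ℓ E₀ B D W d) (F1.1 c) (F2.1 d)
  have hX' : X13 B m (fun W => fm ℓ E₀ B D W c) (fun W => fm ℓ E₀ B D W d) L =
      ∑ χ ∈ X1, ∑ χ' ∈ X2, (α χ * β χ' * (a₀ ^ 2 *
          ((∑ w ∈ Qm, D.D (pL L) χ w.2 * starRingEnd ℂ (D.D (qL L) χ' (w.1 w.2))) *
          (∑ w ∈ Qv, starRingEnd ℂ (D.D (pL L) χ w.2) * D.D (qL L) χ' (w.1 w.2)))) +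
        α χ * β χ' * (a₀ * b₀ *
          ((∑ w ∈ Qm, D.D (pL L) χ w.2 * starRingEnd ℂ (D.D (qL L) χ' (w.1 w.2))) *
          (∑ w ∈ Rq, starRingEnd ℂ (nu B χ w.2) * nu B χ' (w.1 w.2) *
            D.R (pL L) χ (ac B w.1⁻¹ χ')))) +
        α χ * β χ' * (b₀ * a₀ *
          ((∑ w ∈ Rm, nu B χ w.2 * starRingEnd ℂ (nu B χ' (w.1 w.2)) *
            D.R (pL L) χ (ac B w.1⁻¹ χ')) *
          (∑ w ∈ Qv, starRingEnd ℂ (D.D (pL L) χ w.2) * D.D (qL L) χ' (w.1 w.2)))) +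
        α χ * β χ' * (b₀ ^ 2 *
          ((∑ w ∈ Rm, nu B χ w.2 * starRingEnd ℂ (nu B χ' (w.1 w.2)) *
            D.R (pL L) χ (ac B w.1⁻¹ χ')) *
          (∑ w ∈ Rq, starRingEnd ℂ (nu B χ w.2) * nu B χ' (w.1 w.2) *
            D.R (pL L) χ (ac B w.1⁻¹ χ'))))) := by
    rw [hX, finsum_mem_eq_finite_toFinset_sum _ hfin1, ← hX1, Finset.mul_sum]
    refine Finset.sum_congr rfl fun χ hχ => ?_
    rw [finsum_mem_eq_finite_toFinset_sum _ hfin2, ← hX2, Finset.mul_sum]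
    refine Finset.sum_congr rfl fun χ' hχ' => ?_
    rw [hSm χ ((hmX1 χ).1 hχ) χ' ((hmX2 χ').1 hχ'), hSq χ ((hmX1 χ).1 hχ) χ' ((hmX2 χ').1 hχ'),
      ← ha₀, ← hb₀, hα, hβ]
    generalize (∑ w ∈ Qm, D.D (pL L) χ w.2 * starRingEnd ℂ (D.D (qL L) χ' (w.1 w.2))) = s1
    generalize (∑ w ∈ Qv, starRingEnd ℂ (D.D (pL L) χ w.2) * D.D (qL L) χ' (w.1 w.2)) = s3
    generalize (∑ w ∈ Rm, nu B χ w.2 * starRingEnd ℂ (nu B χ' (w.1 w.2)) *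
            D.R (pL L) χ (ac B w.1⁻¹ χ')) = s2
    generalize (∑ w ∈ Rq, starRingEnd ℂ (nu B χ w.2) * nu B χ' (w.1 w.2) *
            D.R (pL L) χ (ac B w.1⁻¹ χ')) = s4
    field_simp
    ring
  rw [hX']
  simp only [Finset.sum_add_distrib]
  rw [term4, term4, term4, term4]
  -- the sums over the characters
  have S1' : ∀ y y' : V₀, ∑ χ ∈ X1, α χ * (D.D (pL L) χ y * starRingEnd ℂ (D.D (pL L) χ y')) =
      (ux D.U (pL L) c : ℚ) * (ℓ : ℂ) ^ 2 * {w : St E₀ (pL L) × St E₀ (pL L) |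
        y' = (w.2 : MulAut V₀) (y * (w.1 : MulAut V₀) c)}.ncard := by
    intro y y'
    rw [← S1.1 y y', finsum_mem_eq_finite_toFinset_sum _ hfin1, ← hX1, hα]
  have S2' : ∀ y y' : V₀, ∑ χ ∈ X2, β χ * (D.D (qL L) χ y * starRingEnd ℂ (D.D (qL L) χ y')) =
      (ux D.U (qL L) d : ℚ) * (ℓ : ℂ) ^ 2 * {w : St E₀ (qL L) × St E₀ (qL L) |
        y' = (w.2 : MulAut V₀) (y * (w.1 : MulAut V₀) d)}.ncard := by
    intro y y'
    rw [← S2.1 y y', finsum_mem_eq_finite_toFinset_sum _ hfin2, ← hX2, hβ]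
  have S3' : ∀ ψ ∈ Ch B (pL L), ∀ z ∈ pL L, ∀ y : V₀, ∑ χ ∈ X1, α χ *
      (D.D (pL L) χ y * (starRingEnd ℂ (nu B χ z) * D.R (pL L) χ ψ)) = 0 := by
    intro ψ hψ z hz y
    rw [← S1.2.1 ψ hψ z hz y, finsum_mem_eq_finite_toFinset_sum _ hfin1, ← hX1, hα]
  have S4' : ∀ ψ ∈ Ch B (pL L), ∀ z ∈ pL L, ∀ y : V₀, ∑ χ ∈ X1, α χ *
      (starRingEnd ℂ (D.D (pL L) χ y) * (nu B χ z * D.R (pL L) χ ψ)) = 0 := by
    intro ψ hψ z hz y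
    rw [← S1.2.2 ψ hψ z hz y, finsum_mem_eq_finite_toFinset_sum _ hfin1, ← hX1, hα]
  have hT1 : ∑ w ∈ Qm, ∑ w' ∈ Qv, ∑ χ' ∈ X2, ∑ χ ∈ X1, α χ * β χ' *
      (D.D (pL L) χ w.2 * starRingEnd ℂ (D.D (qL L) χ' (w.1 w.2)) *
        (starRingEnd ℂ (D.D (pL L) χ w'.2) * D.D (qL L) χ' (w'.1 w'.2))) =
      (ux D.U (pL L) c : ℚ) * (ux D.U (qL L) d : ℚ) * (ℓ : ℂ) ^ 4 *
        ((nS E₀ (pL L) : ℂ) ^ 2 * (nS E₀ (qL L) : ℂ) ^ 2 * N13 E₀ c d L) := by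
    rw [← cnt3 cn3 E₀ c d L Qm Qv hmQm hmQv, Finset.mul_sum]
    refine Finset.sum_congr rfl fun w _ => ?_
    rw [Finset.mul_sum]
    refine Finset.sum_congr rfl fun w' _ => ?_
    have h1 : ∑ χ' ∈ X2, ∑ χ ∈ X1, α χ * β χ' *
      (D.D (pL L) χ w.2 * starRingEnd ℂ (D.D (qL L) χ' (w.1 w.2)) *
        (starRingEnd ℂ (D.D (pL L) χ w'.2) * D.D (qL L) χ' (w'.1 w'.2))) =
        (∑ χ' ∈ X2, β χ' * (D.D (qL L) χ' (w'.1 w'.2) *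
          starRingEnd ℂ (D.D (qL L) χ' (w.1 w.2)))) *
        ∑ χ ∈ X1, α χ * (D.D (pL L) χ w.2 * starRingEnd ℂ (D.D (pL L) χ w'.2)) := by
      rw [Finset.sum_mul_sum]
      refine Finset.sum_congr rfl fun χ' _ => Finset.sum_congr rfl fun χ _ => ?_
      ring
    rw [h1, S1', S2']
    ring
  have hT2 : ∑ w ∈ Qm, ∑ w' ∈ Rq, ∑ χ' ∈ X2, ∑ χ ∈ X1, α χ * β χ' *
      (D.D (pL L) χ w.2 * starRingEnd ℂ (D.D (qL L) χ' (w.1 w.2)) *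
        (starRingEnd ℂ (nu B χ w'.2) * nu B χ' (w'.1 w'.2) *
            D.R (pL L) χ (ac B w'.1⁻¹ χ'))) = 0 := by
    refine Finset.sum_eq_zero fun w _ => Finset.sum_eq_zero fun w' hw' =>
      Finset.sum_eq_zero fun χ' hχ' => ?_
    obtain ⟨hw1, -, hw2, hw3⟩ := (hmRq w').1 hw'
    have h1 := S3' (ac B w'.1⁻¹ χ') (hac w'.1 hw1.1 hw2 χ' ((hmX2 χ').1 hχ')) w'.2 hw3 w.2
    have h2 : ∑ χ ∈ X1, α χ * β χ' *
      (D.D (pL L) χ w.2 * starRingEnd ℂ (D.D (qL L) χ' (w.1 w.2)) *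
        (starRingEnd ℂ (nu B χ w'.2) * nu B χ' (w'.1 w'.2) *
            D.R (pL L) χ (ac B w'.1⁻¹ χ'))) =
        (β χ' * starRingEnd ℂ (D.D (qL L) χ' (w.1 w.2)) * nu B χ' (w'.1 w'.2)) *
        ∑ χ ∈ X1, α χ * (D.D (pL L) χ w.2 * (starRingEnd ℂ (nu B χ w'.2) *
          D.R (pL L) χ (ac B w'.1⁻¹ χ'))) := by
      rw [Finset.mul_sum]
      refine Finset.sum_congr rfl fun χ _ => ?_
      ring
    rw [h2, h1, mul_zero]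
  have hT3 : ∑ w ∈ Rm, ∑ w' ∈ Qv, ∑ χ' ∈ X2, ∑ χ ∈ X1, α χ * β χ' *
      (nu B χ w.2 * starRingEnd ℂ (nu B χ' (w.1 w.2)) * D.R (pL L) χ (ac B w.1⁻¹ χ') *
        (starRingEnd ℂ (D.D (pL L) χ w'.2) * D.D (qL L) χ' (w'.1 w'.2))) = 0 := by
    refine Finset.sum_eq_zero fun w hw => Finset.sum_eq_zero fun w' _ =>
      Finset.sum_eq_zero fun χ' hχ' => ?_
    obtain ⟨hw1, -, hw2, hw3⟩ := (hmRm w).1 hw
    have h1 := S4' (ac B w.1⁻¹ χ') (hac w.1 hw1.1 hw2 χ' ((hmX2 χ').1 hχ')) w.2 hw3 w'.2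
    have h2 : ∑ χ ∈ X1, α χ * β χ' *
      (nu B χ w.2 * starRingEnd ℂ (nu B χ' (w.1 w.2)) * D.R (pL L) χ (ac B w.1⁻¹ χ') *
        (starRingEnd ℂ (D.D (pL L) χ w'.2) * D.D (qL L) χ' (w'.1 w'.2))) =
        (β χ' * starRingEnd ℂ (nu B χ' (w.1 w.2)) * D.D (qL L) χ' (w'.1 w'.2)) *
        ∑ χ ∈ X1, α χ * (starRingEnd ℂ (D.D (pL L) χ w'.2) * (nu B χ w.2 *
          D.R (pL L) χ (ac B w.1⁻¹ χ'))) := by
      rw [Finset.mul_sum]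
      refine Finset.sum_congr rfl fun χ _ => ?_
      ring
    rw [h2, h1, mul_zero]
  have hT4in : ∀ w ∈ Rm, ∀ w' ∈ Rq, ∑ χ' ∈ X2, ∑ χ ∈ X1, α χ * β χ' *
      (nu B χ w.2 * starRingEnd ℂ (nu B χ' (w.1 w.2)) * D.R (pL L) χ (ac B w.1⁻¹ χ') *
        (starRingEnd ℂ (nu B χ w'.2) * nu B χ' (w'.1 w'.2) *
            D.R (pL L) χ (ac B w'.1⁻¹ χ'))) =
      (nS E₀ (pL L) : ℂ) ^ 2 * ((ux D.U (pL L) c : ℚ) * (ux D.U (qL L) d : ℚ)) *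
      if w'.2 = pr ℓ E₀ (pL L) c * w.2 ∧ w.1 w.2 = pr ℓ E₀ (qL L) d * w'.1 w'.2 then
        ((D.fx (pL L) (w.1⁻¹ * w'.1) - 1 : ℚ) : ℂ) else 0 := by
    intro w hw w' hw'
    obtain ⟨hw1, hcard, hw2, hw3⟩ := (hmRm w).1 hw
    obtain ⟨hw1', -, hw2', hw3'⟩ := (hmRq w').1 hw'
    have hE := hw1.1
    have hE' := hw1'.1
    have hnn : (nS E₀ (qL L) : ℂ) = nS E₀ (pL L) := by
      have h1 := (P1.2.2.2.1 w.1 hE).1
      rw [hw2] at h1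
      rw [h1]
    have hty : w.1 w.2 ∈ qL L := mem_mp hw2 hw3
    have hty' : w'.1 w'.2 ∈ qL L := mem_mp hw2' hw3'
    -- the sum over `χ`
    have hin : ∀ χ' ∈ X2, ∑ χ ∈ X1, α χ * β χ' *
      (nu B χ w.2 * starRingEnd ℂ (nu B χ' (w.1 w.2)) * D.R (pL L) χ (ac B w.1⁻¹ χ') *
        (starRingEnd ℂ (nu B χ w'.2) * nu B χ' (w'.1 w'.2) *
            D.R (pL L) χ (ac B w'.1⁻¹ χ'))) =
        if pr ℓ E₀ (pL L) c * (w.2 * w'.2⁻¹) = 1 then (nS E₀ (pL L) : ℂ) *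
          (ux D.U (pL L) c : ℚ) * (β χ' * nu B χ' (w'.1 w'.2 * (w.1 w.2)⁻¹) *
            D.R (qL L) χ' (ac B (w'.1 * w.1⁻¹)⁻¹ χ')) else 0 := by
      intro χ' hχ'
      have hχ := (hmX2 χ').1 hχ'
      have hψ := hac w.1 hE hw2 χ' hχ
      have hψ' := hac w'.1 hE' hw2' χ' hχ
      have h7 := hD.d7 (pL L) hp (ac B w.1⁻¹ χ') hψ (ac B w'.1⁻¹ χ') hψ' (w.2 * w'.2⁻¹)
        ((pL L).mul_mem hw3 ((pL L).inv_mem hw3')) c
      rw [finsum_mem_eq_finite_toFinset_sum _ hfin1, ← hX1] at h7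
      have h8 : ∑ χ ∈ X1, α χ * β χ' *
      (nu B χ w.2 * starRingEnd ℂ (nu B χ' (w.1 w.2)) * D.R (pL L) χ (ac B w.1⁻¹ χ') *
        (starRingEnd ℂ (nu B χ w'.2) * nu B χ' (w'.1 w'.2) *
            D.R (pL L) χ (ac B w'.1⁻¹ χ'))) =
          (β χ' * nu B χ' (w'.1 w'.2 * (w.1 w.2)⁻¹)) * ∑ χ ∈ X1,
            D.R (pL L) (ac B w.1⁻¹ χ') χ * (nu B χ (w.2 * w'.2⁻¹) *
              cv (fm ℓ E₀ B D (pL L) c) χ) * D.R (pL L) χ (ac B w'.1⁻¹ χ') := by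
        rw [Finset.mul_sum]
        refine Finset.sum_congr rfl fun χ hχ1 => ?_
        have hχ1' := (hmX1 χ).1 hχ1
        have e1 : nu B χ (w.2 * w'.2⁻¹) = nu B χ w.2 * starRingEnd ℂ (nu B χ w'.2) := by
          rw [((hnu1 χ hχ1').2.2.1 w.2 hw3).2.2 w'.2⁻¹ ((pL L).inv_mem hw3'),
            ((hnu1 χ hχ1').2.2.1 w'.2 hw3').1]
        have e2 : nu B χ' (w'.1 w'.2 * (w.1 w.2)⁻¹) =
            nu B χ' (w'.1 w'.2) * starRingEnd ℂ (nu B χ' (w.1 w.2)) := by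
          rw [((hnu2 χ' hχ).2.2.1 _ hty').2.2 _ ((qL L).inv_mem hty),
            ((hnu2 χ' hχ).2.2.1 _ hty).1]
        have e3 := ((hD.d6 (pL L) hp _ hψ).2 χ hχ1').1
        rw [e1, e2, ← e3, hα]
        ring
      rw [h8, h7]
      -- transport of `R`
      have hRR : D.R (pL L) (ac B w.1⁻¹ χ') (ac B w'.1⁻¹ χ') =
          D.R (qL L) χ' (ac B (w'.1 * w.1⁻¹)⁻¹ χ') := by
        have ht := hact w.1 hE
        have h9 := ((hD.e8 (pL L) hp w.1 hE (tt B w.1) ht.1 ht.2).2 (ac B w.1⁻¹ χ') hψ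
          (ac B w'.1⁻¹ χ') hψ').2
        have h10 : (fun g => ac B w.1⁻¹ χ' ((tt B w.1)⁻¹ * g * tt B w.1)) = χ' := by
          have h11 := (((AC (qL L) w.1⁻¹ (E₀.inv_mem hE)).2.2.1 χ' hχ).2.2.1 w.1 hE)
          rw [mul_inv_cancel, ((AC (qL L) w.1⁻¹ (E₀.inv_mem hE)).2.2.1 χ' hχ).2.1] at h11
          exact h11.symm
        have h12 : (fun g => ac B w'.1⁻¹ χ' ((tt B w.1)⁻¹ * g * tt B w.1)) =
            ac B (w'.1 * w.1⁻¹)⁻¹ χ' := by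
          have h11 := (((AC (qL L) w'.1⁻¹ (E₀.inv_mem hE')).2.2.1 χ' hχ).2.2.1 w.1 hE)
          have h13 : (w'.1 * w.1⁻¹)⁻¹ = w.1 * w'.1⁻¹ := by group
          rw [h13, h11]
          rfl
        rw [h10, h12, hw2] at h9
        exact h9.symm
      rw [hRR]
      split_ifs
      · ring
      · ring
    rw [Finset.sum_congr rfl hin]
    -- the sum over `χ'`
    have hg : w'.1 * w.1⁻¹ ∈ E₀ := E₀.mul_mem hE' (E₀.inv_mem hE)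
    have hgm : mp (w'.1 * w.1⁻¹) (qL L) = qL L := by
      rw [mp_mul, mp_inv hw2, hw2']
    have h8 := hD.d8 (qL L) hq (w'.1 * w.1⁻¹) hg hgm (w'.1 w'.2 * (w.1 w.2)⁻¹)
      ((qL L).mul_mem hty' ((qL L).inv_mem hty)) d
    rw [finsum_mem_eq_finite_toFinset_sum _ hfin2, ← hX2] at h8
    have hfx : D.fx (qL L) (w'.1 * w.1⁻¹) = D.fx (pL L) (w.1⁻¹ * w'.1) := by
      have hg' : w.1⁻¹ * w'.1 ∈ E₀ := E₀.mul_mem (E₀.inv_mem hE) hE'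
      have hgm' : mp (w.1⁻¹ * w'.1) (pL L) = pL L := by
        rw [mp_mul, hw2', mp_inv hw2]
      have h9 := hD.fe (pL L) hp w.1 hE _ hg' hgm'
      have h13 : w.1 * (w.1⁻¹ * w'.1) * w.1⁻¹ = w'.1 * w.1⁻¹ := by group
      rw [h13, hw2] at h9
      exact h9
    by_cases hc1 : pr ℓ E₀ (pL L) c * (w.2 * w'.2⁻¹) = 1
    · have hc1' : w'.2 = pr ℓ E₀ (pL L) c * w.2 := by
        have := congrArg (· * w'.2) hc1
        simp only [one_mul] at this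
        rw [← this]
        group
      simp only [if_pos hc1]
      rw [← Finset.mul_sum]
      have h14 : ∑ χ' ∈ X2, β χ' * nu B χ' (w'.1 w'.2 * (w.1 w.2)⁻¹) *
          D.R (qL L) χ' (ac B (w'.1 * w.1⁻¹)⁻¹ χ') =
          if pr ℓ E₀ (qL L) d * (w'.1 w'.2 * (w.1 w.2)⁻¹) = 1 then
            (nS E₀ (qL L) : ℂ) * (ux D.U (qL L) d : ℚ) *
              ((D.fx (qL L) (w'.1 * w.1⁻¹) : ℚ) - 1) else 0 := by
        rw [← h8, hβ]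
      rw [h14, hnn, hfx]
      by_cases hc2 : pr ℓ E₀ (qL L) d * (w'.1 w'.2 * (w.1 w.2)⁻¹) = 1
      · have hc2' : w.1 w.2 = pr ℓ E₀ (qL L) d * w'.1 w'.2 := by
          have := congrArg (· * w.1 w.2) hc2
          simp only [one_mul] at this
          rw [← this]
          group
        rw [if_pos hc2, if_pos ⟨hc1', hc2'⟩]
        push_cast
        ring
      · have hc2' : ¬ (w'.2 = pr ℓ E₀ (pL L) c * w.2 ∧
            w.1 w.2 = pr ℓ E₀ (qL L) d * w'.1 w'.2) := by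
          rintro ⟨-, h15⟩
          apply hc2
          rw [h15]
          group
        rw [if_neg hc2, if_neg hc2', mul_zero, mul_zero]
    · have hc2' : ¬ (w'.2 = pr ℓ E₀ (pL L) c * w.2 ∧
          w.1 w.2 = pr ℓ E₀ (qL L) d * w'.1 w'.2) := by
        rintro ⟨h15, -⟩
        apply hc1
        rw [h15]
        group
      simp only [if_neg hc1]
      rw [if_neg hc2', Finset.sum_const_zero, mul_zero]
  have hT4 : ∑ w ∈ Rm, ∑ w' ∈ Rq, ∑ χ' ∈ X2, ∑ χ ∈ X1, α χ * β χ' *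
      (nu B χ w.2 * starRingEnd ℂ (nu B χ' (w.1 w.2)) * D.R (pL L) χ (ac B w.1⁻¹ χ') *
        (starRingEnd ℂ (nu B χ w'.2) * nu B χ' (w'.1 w'.2) *
            D.R (pL L) χ (ac B w'.1⁻¹ χ'))) =
      (nS E₀ (pL L) : ℂ) ^ 2 * ((ux D.U (pL L) c : ℚ) * (ux D.U (qL L) d : ℚ)) *
        ((M13 ℓ E₀ D.fx c d L : ℚ) : ℂ) := by
    rw [Finset.sum_congr rfl fun w hw => Finset.sum_congr rfl fun w' hw' => hT4in w hw w' hw']
    simp only [← Finset.mul_sum]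
    congr 1
    rcases (P1.2.2.2.2.2.2.1 hp).1 with h7 | h7
    · have hfx1 := (hD.f1 (pL L) hp h7).2
      have hM : M13 ℓ E₀ D.fx c d L = 0 := by
        unfold M13
        simp only [hfx1, sub_self]
        exact finsum_mem_zero _
      rw [hM]
      simp only [hfx1, sub_self, Rat.cast_zero, ite_self, Finset.sum_const_zero]
    have hprc : pr ℓ E₀ (pL L) c ∈ pL L := P1.2.2.2.2.1 h7 c
    rw [← Finset.sum_product', ← Finset.sum_filter]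
    unfold M13
    rw [finsum_mem_eq_finite_toFinset_sum _ (Set.toFinite _), Rat.cast_sum]
    symm
    refine Finset.sum_nbij (fun v : E₀ × E₀ × V₀ =>
      (((v.1 : MulAut V₀), v.2.2), ((v.2.1 : MulAut V₀), pr ℓ E₀ (pL L) c * v.2.2))) ?_ ?_ ?_ ?_
    · intro v hv
      rw [Set.Finite.mem_toFinset] at hv
      obtain ⟨h1, h2, h3, h4, h5, h6⟩ := hv
      rw [Finset.mem_filter, Finset.mem_product, hmRm, hmRq]
      refine ⟨⟨⟨⟨v.1.2, ?_⟩, h1, h2, h4⟩, ⟨⟨v.2.1.2, ?_⟩, h1, h3, ?_⟩⟩, rfl, h5⟩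
      · rintro s ⟨t, ht, rfl⟩
        have := (h6 t ht).1
        simpa using this
      · rintro s ⟨t, ht, rfl⟩
        have := (h6 t ht).2
        simpa using this
      · exact (pL L).mul_mem hprc h4
    · intro v _ v' _ h
      simp only [Prod.mk.injEq] at h
      obtain ⟨⟨h1, h2⟩, h3, -⟩ := h
      exact Prod.ext (Subtype.ext h1) (Prod.ext (Subtype.ext h3) h2)
    · intro x hx
      have hx' := Finset.mem_coe.1 hx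
      rw [Finset.mem_filter, Finset.mem_product, hmRm, hmRq] at hx'
      obtain ⟨⟨⟨⟨hE, hQ⟩, h1, h2, h4⟩, ⟨⟨hE', hQ'⟩, -, h3, -⟩⟩, h5, h6⟩ := hx'
      refine ⟨(⟨x.1.1, hE⟩, ⟨x.2.1, hE'⟩, x.1.2), ?_, ?_⟩
      · rw [Finset.mem_coe, Set.Finite.mem_toFinset]
        refine ⟨h1, h2, h3, h4, ?_, ?_⟩
        · show x.1.1 x.1.2 = pr ℓ E₀ (qL L) d * x.2.1 (pr ℓ E₀ (pL L) c * x.1.2)
          rw [← h5]
          exact h6
        · intro s hs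
          constructor
          · have := hQ _ ⟨s, hs, rfl⟩
            simpa using this
          · have := hQ' _ ⟨s, hs, rfl⟩
            rw [h5] at this
            simpa using this
      · exact Prod.ext (Prod.ext rfl rfl) (Prod.ext rfl h5.symm)
    · intro v hv
      rfl
  rw [hT1, hT2, hT3, hT4, ha₀, hb₀]
  unfold P13
  push_cast
  field_simp
  ring

end Pool.Agent.PP.SE.H81
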