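import Pool.Agent.ASE.Stmts5
import Pool.Agent.Helper65_ASO.WZE
import Pool.Agent.Helper49_ASD.CND

/-!
# Row XEM of squad ASE: the sums without conditions
-/

set_option autoImplicit false

open scoped BigOperators

noncomputable section

namespace Pool.Agent.PP.SE.H81

open Pool.Agent.Helper51_AWC Pool.Agent.Helper79_WRA Pool.Agent.PP Pool.Agent.PP.KF
open Pool.Agent.PP.K9 Pool.Agent.PP.K9.H97 Pool.Agent.PP.H75 Pool.Agent.PP.T3 Pool.Agent.PP.SO
open Pool.Agent.PP.SD Pool.Agent.PP.SE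

attribute [local instance] Ideal.Quotient.field

section gen

variable {G : Type} [Group G]

theorem irr_sum [Finite G] [Fintype (Irr G)] (f : (G → ℂ) → ℂ) :
    ∑ᶠ χ ∈ Irr G, f χ = ∑ θ : Irr G, f (θ : G → ℂ) := by
  rw [← finsum_set_coe_eq_finsum_mem (s := Irr G) (f := f), finsum_eq_sum_of_fintype]

theorem kap_frob [Fintype G] [Fintype (Irr G)] (g : G) :
    (({w : G × G | SO.kap w.1 w.2 = g}.ncard : ℕ) : ℂ) =
      ∑ θ : Irr G, (Nat.card G : ℂ) * ((θ : G → ℂ) g / (θ : G → ℂ) 1) := by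
  rw [SO.H65.kap_ncard, SO.H65.frobS]

theorem kap_cls [Fintype G] (g x : G) :
    (({w : G × G | SO.kap w.1 w.2 = x * g * x⁻¹}.ncard : ℕ) : ℂ) =
      (({w : G × G | SO.kap w.1 w.2 = g}.ncard : ℕ) : ℂ) := by
  classical
  have : Fintype (Irr G) := Fintype.ofFinite _
  rw [kap_frob, kap_frob]
  exact Finset.sum_congr rfl fun θ _ => by rw [irr_conj θ.2]

theorem sum_kap [Fintype G] [Fintype (Irr G)] (z : G → ℂ) :
    (Nat.card G : ℂ)⁻¹ * ∑ᶠ g, z g * (({w : G × G | SO.kap w.1 w.2 = g}.ncard : ℕ) : ℂ) =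
      ∑ θ : Irr G, SO.cv z (θ : G → ℂ) := by
  classical
  have hG : (Nat.card G : ℂ) ≠ 0 := by
    rw [Nat.card_eq_fintype_card]
    exact_mod_cast Fintype.card_ne_zero
  rw [finsum_eq_sum_of_fintype]
  have h1 : ∀ g, z g * (({w : G × G | SO.kap w.1 w.2 = g}.ncard : ℕ) : ℂ) =
      ∑ θ : Irr G, (Nat.card G : ℂ) * (z g * (θ : G → ℂ) g / (θ : G → ℂ) 1) := by
    intro g
    rw [kap_frob, Finset.mul_sum]
    refine Finset.sum_congr rfl fun θ _ => ?_
    ring
  rw [Finset.sum_congr rfl fun g _ => h1 g, Finset.sum_comm, Finset.mul_sum]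
  refine Finset.sum_congr rfl fun θ _ => ?_
  unfold SO.cv
  rw [← Finset.mul_sum, ← Finset.sum_div, finsum_eq_sum_of_fintype, ← mul_assoc,
    inv_mul_cancel₀ hG, one_mul]

theorem sum_avg_all [Fintype G] (k : ℂ) (φ χ : G → ℂ)
    (hχ : ∀ g h : G, χ (h * g * h⁻¹) = χ g) :
    ∑ᶠ g, (k * ∑ᶠ z : G, φ (z⁻¹ * g * z)) * χ g = k * ((Nat.card G : ℂ) * ∑ᶠ h, φ h * χ h) := by
  classical
  have h0 : ∀ g, (k * ∑ᶠ z : G, φ (z⁻¹ * g * z)) * χ g =
      ∑ z : G, k * (φ (z⁻¹ * g * z) * χ g) := by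
    intro g
    rw [finsum_eq_sum_of_fintype, Finset.mul_sum, Finset.sum_mul]
    exact Finset.sum_congr rfl fun z _ => by ring
  rw [finsum_congr h0, finsum_eq_sum_of_fintype, Finset.sum_comm]
  have h1 : ∀ z : G, ∑ g : G, k * (φ (z⁻¹ * g * z) * χ g) = k * ∑ᶠ h, φ h * χ h := by
    intro z
    rw [← Finset.mul_sum, finsum_eq_sum_of_fintype]
    congr 1
    rw [← Equiv.sum_comp (MulAut.conj z).toEquiv]
    refine Finset.sum_congr rfl fun h _ => ?_
    show φ (z⁻¹ * (z * h * z⁻¹) * z) * χ (z * h * z⁻¹) = φ h * χ h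
    rw [hχ]
    congr 2
    group
  rw [Finset.sum_congr rfl fun z _ => h1 z, Finset.sum_const, Finset.card_univ,
    ← Nat.card_eq_fintype_card, nsmul_eq_mul]
  ring

theorem avg_cls (k : ℂ) (φ : G → ℂ) (x g : G) :
    k * ∑ᶠ z : G, φ (z⁻¹ * (x * g * x⁻¹) * z) = k * ∑ᶠ z : G, φ (z⁻¹ * g * z) := by
  congr 1
  rw [← finsum_comp_equiv (Equiv.mulLeft x)]
  refine finsum_congr fun z => ?_
  show φ ((x * z)⁻¹ * (x * g * x⁻¹) * (x * z)) = φ (z⁻¹ * g * z)
  congr 1
  group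

end gen

section blk

variable {V₀ G : Type} [CommGroup V₀] [Group G] {M : Ideal (integralClosure ℤ ℂ)} [M.IsMaximal]

theorem fc_one [Finite G] (B : Bk (FF M) V₀ G) (W : Subgroup V₀) : fc B W 1 = bh B W := by
  funext g
  have h1 : W ⊔ Subgroup.zpowers (1 : V₀) = W := by
    rw [Subgroup.zpowers_one_eq_bot, sup_bot_eq]
  unfold fc
  rw [h1]
  have := Fintype.ofFinite (B.C W)
  have h2 : ∀ z : B.C W, bh B W ((B.i 1)⁻¹ * ((z : G)⁻¹ * g * z)) = bh B W g := by
    intro z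
    rw [map_one, inv_one, one_mul]
    by_cases hg : g ∈ B.C W
    · have h3 := SD.H49.cnd_bh_cl B W ⟨g, hg⟩ z⁻¹
      have h4 : ((z⁻¹ * ⟨g, hg⟩ * z⁻¹⁻¹ : B.C W) : G) = (z : G)⁻¹ * g * z := by
        show (z : G)⁻¹ * g * ((z : G)⁻¹)⁻¹ = _
        rw [inv_inv]
      rw [h4] at h3
      exact h3
    · rw [SD.H49.cnd_bh_off B W hg, SD.H49.cnd_bh_off B W]
      intro h
      apply hg
      have h5 := (B.C W).mul_mem ((B.C W).mul_mem z.2 h) ((B.C W).inv_mem z.2)
      have h6 : (z : G) * ((z : G)⁻¹ * g * z) * (z : G)⁻¹ = g := by group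
      rwa [h6] at h5
  rw [finsum_congr h2, finsum_eq_sum_of_fintype, Finset.sum_const, Finset.card_univ,
    ← Nat.card_eq_fintype_card, nsmul_eq_mul, ← mul_assoc, inv_mul_cancel₀, one_mul]
  rw [Nat.card_eq_fintype_card]
  exact_mod_cast Fintype.card_ne_zero

theorem cv_bh [Finite G] (B : Bk (FF M) V₀ G) (W : Subgroup V₀) {ψ : G → ℂ} (hψ : ψ ∈ Ch B W) :
    SO.cv (bh B W) ψ = 1 := by
  classical
  have := Fintype.ofFinite G
  have := Fintype.ofFinite (B.C W)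
  unfold SO.cv bh
  rw [SO.H32.sum_ext0, finsum_eq_sum_of_fintype,
    K9.H25.eh_chv M _ hψ.2.1, if_pos hψ.2]
  exact div_self (irr_one_ne (χ := fun t : B.C W => ψ t) hψ.2.1)

end blk

theorem xem (smg : T3.SmgStmt) (hCzb : CzbStmt) : XemStmt := by
  intro ℓ _ M _ hM hl2 V₀ G _ _ _ _ E₀ hFq B hSb D hRs
  classical
  have := Fintype.ofFinite G
  have : Fintype (Irr G) := Fintype.ofFinite _
  obtain ⟨hA, -, -⟩ := SO.H65.wze smg ℓ M hM V₀ G E₀ hFq.ex B hSb
  have hCb : Nat.card (B.C ⊥) = Nat.card G := by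
    rw [SO.H32.C_bot B, Subgroup.card_top]
  have hne : ∀ a ∈ RL ℓ E₀, a ≠ ⊥ := by
    intro a ha h
    have h1 := ha.1
    rw [h, Subgroup.card_bot] at h1
    exact (Fact.out : ℓ.Prime).one_lt.ne h1
  have hetl : ∀ a ∈ RL ℓ E₀, ∀ κ, etl B D a κ ⊥ = fun g =>
      (Nat.card (B.C a) : ℂ)⁻¹ * ∑ᶠ z : G, tk B κ (D.et a) (z⁻¹ * g * z) := by
    intro a ha κ
    funext g
    unfold etl
    rw [if_neg (fun h => hne a ha h.symm), if_pos rfl]
  have hcls : ∀ a ∈ RL ℓ E₀, ∀ κ x g, etl B D a κ ⊥ (x * g * x⁻¹) = etl B D a κ ⊥ g := by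
    intro a ha κ x g
    rw [hetl a ha κ]
    exact avg_cls _ _ x g
  refine ⟨?_, ?_, ?_, ?_, ?_⟩
  · intro z _
    rw [irr_sum]
    exact sum_kap z
  · intro n m α β _ _
    have hp : pL (∅ : Set (SO.SS n V₀)) = ⊥ := by
      unfold pL
      have h1 : {p : V₀ | ∃ s ∈ (∅ : Set (SO.SS n V₀)), s.2.2.1 = p} = ∅ := by
        ext p
        constructor
        · rintro ⟨s, hs, -⟩
          exact hs
        · intro h
          exact h.elim
      rw [h1, Subgroup.closure_empty]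
    have hq : qL (∅ : Set (SO.SS n V₀)) = ⊥ := by
      unfold qL
      have h1 : {p : V₀ | ∃ s ∈ (∅ : Set (SO.SS n V₀)), s.2.2.2 = p} = ∅ := by
        ext p
        constructor
        · rintro ⟨s, hs, -⟩
          exact hs
        · intro h
          exact h.elim
      rw [h1, Subgroup.closure_empty]
    have hG : (Nat.card G : ℂ) ≠ 0 := by
      rw [Nat.card_eq_fintype_card]
      exact_mod_cast Fintype.card_ne_zero
    unfold X12
    rw [hp, hq, hCb, irr_sum, finsum_eq_sum_of_fintype]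
    have h1 : ∀ w : G × G, α ⊥ w.1 * β ⊥ w.2 * (({z : XX w.1 w.2 | ∀ s ∈ (∅ : Set (SO.SS n V₀)),
        c12 m B.i z.1.1 z.1.2.1 z.1.2.2 s.1 s.2.1 s.2.2.1 s.2.2.2}.ncard : ℕ) : ℂ) =
        ∑ θ : Irr G, (Nat.card G : ℂ) ^ 2 *
          ((α ⊥ w.1 * (θ : G → ℂ) w.1) * (β ⊥ w.2 * (θ : G → ℂ) w.2)) / (θ : G → ℂ) 1 ^ 2 := by
      intro w
      rw [SO.H65.ncard_all _ (fun z s hs => absurd hs (Set.notMem_empty s)), SO.H65.xx_card,
        Finset.mul_sum]
      refine Finset.sum_congr rfl fun θ _ => ?_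
      ring
    rw [Finset.sum_congr rfl fun w _ => h1 w, Finset.sum_comm, Finset.mul_sum]
    refine Finset.sum_congr rfl fun θ _ => ?_
    have h2 : ∑ w : G × G, (Nat.card G : ℂ) ^ 2 *
        ((α ⊥ w.1 * (θ : G → ℂ) w.1) * (β ⊥ w.2 * (θ : G → ℂ) w.2)) / (θ : G → ℂ) 1 ^ 2 =
        (Nat.card G : ℂ) ^ 2 * ((∑ s : G, α ⊥ s * (θ : G → ℂ) s) *
          ∑ t : G, β ⊥ t * (θ : G → ℂ) t) / (θ : G → ℂ) 1 ^ 2 := by
      rw [← Finset.sum_div, ← Finset.mul_sum, Finset.sum_mul_sum, Fintype.sum_prod_type]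
    have hθ : (θ : G → ℂ) 1 ≠ 0 := irr_one_ne θ.2
    unfold SO.cv
    rw [h2, finsum_eq_sum_of_fintype, finsum_eq_sum_of_fintype]
    field_simp
  · intro a ha κ _
    refine ⟨hcls a ha κ, ?_⟩
    rw [irr_sum, ← sum_kap, hetl a ha κ,
      sum_avg_all _ _ (fun g => (({w : G × G | SO.kap w.1 w.2 = g}.ncard : ℕ) : ℂ))
        (fun g h => kap_cls g h)]
    have hG : (Nat.card G : ℂ) ≠ 0 := by
      rw [Nat.card_eq_fintype_card]
      exact_mod_cast Fintype.card_ne_zero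
    field_simp
  · intro c hc
    constructor
    · intro x g
      have h1 := ((hCzb ℓ M hM hl2 V₀ G E₀ hFq B hSb ⊥).1 c).cls x
        (by rw [SO.H32.C_bot B]; exact Subgroup.mem_top x) g
      unfold mnl
      rw [h1]
    · intro χ hχ hn
      have h1 := hA c hc χ hχ hn
      have h2 : SO.cv (mnl E₀ B c ⊥) χ = (if (⊥ : Subgroup V₀) ≤ Subgroup.zpowers c then
          (kE E₀ c : ℂ) else 1) * SO.cv (fc B ⊥ c) χ := by
        unfold SO.cv mnl
        rw [← mul_div_assoc, finsum_eq_sum_of_fintype, finsum_eq_sum_of_fintype, Finset.mul_sum]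
        congr 1
        exact Finset.sum_congr rfl fun g _ => by rw [mul_assoc]
      rw [h2, h1, mul_zero]
  · intro a ha κ hκ hκ1 χ hχ hn
    -- `a` is generated by `κ`
    have hza : Subgroup.zpowers κ = a := by
      have hle : Subgroup.zpowers κ ≤ a := by
        rw [Subgroup.zpowers_le]
        exact hκ
      have hfin : Finite a := inferInstance
      refine Subgroup.eq_of_le_of_card_ge hle ?_
      have h1 : Nat.card (Subgroup.zpowers κ) ∣ Nat.card a := Subgroup.card_dvd_of_le hle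
      rw [ha.1] at h1 ⊢
      rcases (Nat.dvd_prime (Fact.out : ℓ.Prime)).1 h1 with h2 | h2
      · exfalso
        apply hκ1
        rw [Subgroup.card_eq_one, Subgroup.zpowers_eq_bot] at h2
        exact h2
      · exact h2.ge
    obtain ⟨-, hlc, -⟩ := SO.H32.hlnk ℓ M hM V₀ E₀ G B hSb κ
    rw [hza] at hlc
    have hCa : B.C a = Cu (B.i κ) := by
      rw [← hza]
      exact SO.H32.C_zpowers B κ
    have hi1 : B.i κ ≠ 1 := fun h => hκ1 (hSb.inj (by rw [h, map_one]))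
    have hiE : El ℓ (B.i κ) := ⟨1, by rw [pow_one, ← map_pow, hFq.ex κ, map_one]⟩
    -- `et = et * bh`
    obtain ⟨hz1, -, -, hz4, -, hz6, -, -⟩ := hCzb ℓ M hM hl2 V₀ G E₀ hFq B hSb a
    have haB : a ≠ ⊥ := hne a ha
    have hCz := hRs.e1 a haB
    have hCb' : Cz B a (bh B a) := by
      have := hz1 1
      rwa [fc_one] at this
    have het : (fun g => mulF (D.et a) (bh B a) g) = D.et a := by
      refine hz6 _ _ (hz4 _ _ hCz hCb').1 hCz fun ψ hψ => ?_
      rw [(hz4 _ _ hCz hCb').2 ψ hψ, cv_bh B a hψ, mul_one]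
    -- the sums
    have hkey : ∀ t ∈ B.C a, Reg ℓ t → ∑ᶠ r : G, bh B a r * χ (B.i κ * (t * r)) = 0 := by
      intro t ht hreg
      have h1 := (smg ℓ M hM G (B.i κ) t hi1 hiE (by rw [← hCa]; exact ht) hreg
        (fun t : Cu (B.i κ) => B.b a t) hlc.blk.blk.1 B.e hSb.ld.blk.1).1 hlc.und χ hχ hn
      have h2 : bh B a = PP.ext0 (Cu (B.i κ)) (eh M (fun t : Cu (B.i κ) => B.b a t)) := by
        unfold bh
        rw [hCa]
      rw [h2, SO.H32.sum_ext0 (Cu (B.i κ)) _ (fun r => χ (B.i κ * (t * r))), ← h1]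
      unfold gbv
      refine finsum_congr fun c => ?_
      rw [mul_assoc]
    have hzero : ∑ᶠ g, tk B κ (D.et a) g * χ g = 0 := by
      have h1 : ∑ᶠ g, tk B κ (D.et a) g * χ g = ∑ᶠ s, D.et a s * χ (B.i κ * s) := by
        rw [← finsum_comp_equiv (Equiv.mulLeft (B.i κ))]
        refine finsum_congr fun s => ?_
        show D.et a ((B.i κ)⁻¹ * (B.i κ * s)) * χ (B.i κ * s) = _
        rw [inv_mul_cancel_left]
      rw [h1, ← het, finsum_eq_sum_of_fintype]
      have h2 : ∀ s, mulF (D.et a) (bh B a) s * χ (B.i κ * s) =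
          ∑ t : G, D.et a t * (bh B a (t⁻¹ * s) * χ (B.i κ * s)) := by
        intro s
        unfold mulF
        rw [finsum_eq_sum_of_fintype, Finset.sum_mul]
        exact Finset.sum_congr rfl fun t _ => by rw [mul_assoc]
      rw [Finset.sum_congr rfl fun s _ => h2 s, Finset.sum_comm]
      refine Finset.sum_eq_zero fun t _ => ?_
      rw [← Finset.mul_sum]
      by_cases htC : t ∈ B.C a
      · by_cases hreg : Reg ℓ t
        · have h3 : ∑ s : G, bh B a (t⁻¹ * s) * χ (B.i κ * s) = 0 := by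
            rw [← hkey t htC hreg, finsum_eq_sum_of_fintype,
              ← Equiv.sum_comp (Equiv.mulLeft t)]
            refine Finset.sum_congr rfl fun r _ => ?_
            show bh B a (t⁻¹ * (t * r)) * χ (B.i κ * (t * r)) = _
            rw [inv_mul_cancel_left]
          rw [h3, mul_zero]
        · rw [hRs.e2 a haB t hreg, zero_mul]
      · rw [hCz.sup t htC, zero_mul]
    unfold SO.cv
    rw [hetl a ha κ, sum_avg_all _ _ χ (fun g h => irr_conj hχ g h), hzero, mul_zero, mul_zero,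
      zero_div]

end Pool.Agent.PP.SE.H81
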