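import Pool.Agent.ASE.Stmts9
import Pool.Agent.ASE.Stmts3

/-!
# Row XCH of squad ASE: the equivariant choice of the characters
-/

set_option autoImplicit false

open scoped BigOperators

noncomputable section

namespace Pool.Agent.PP.SE.H81

open Pool.Agent.Helper51_AWC Pool.Agent.Helper79_WRA Pool.Agent.PP Pool.Agent.PP.KF
open Pool.Agent.PP.K9 Pool.Agent.PP.K9.H97 Pool.Agent.PP.H75 Pool.Agent.PP.T3 Pool.Agent.PP.SO
open Pool.Agent.PP.SD Pool.Agent.PP.SE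

attribute [local instance] Ideal.Quotient.field

section orb

variable {V₀ : Type} [CommGroup V₀]

/-- the orbit of `W` -/
def orbE (E₀ : Subgroup (MulAut V₀)) (W : Subgroup V₀) : Set (Subgroup V₀) :=
  {W' | ∃ σ ∈ E₀, mp σ W' = W}

open Classical in
/-- the choice of an element -/
def repS (S : Set (Subgroup V₀)) : Subgroup V₀ := if h : S.Nonempty then h.choose else ⊥

theorem repS_mem {S : Set (Subgroup V₀)} (h : S.Nonempty) : repS S ∈ S := by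
  unfold repS
  rw [dif_pos h]
  exact h.choose_spec

end orb

theorem xch (hFxc : FxcStmt) (hPrb : PrbStmt) (hMpb : MpbStmt) (hAcb : AcbStmt) : XchStmt := by
  intro ℓ _ M _ hM hl2 V₀ G _ _ _ _ E₀ hFq B hSd
  have hSb : Sb ℓ M E₀ B := hSd.toSb
  obtain ⟨hA0, hA⟩ := hAcb ℓ M hM hl2 V₀ G E₀ hFq B hSb
  have hMp : ∀ (σ τ : MulAut V₀) (W : Subgroup V₀), mp 1 W = W ∧ mp (σ * τ) W = mp σ (mp τ W) ∧
      Nat.card (mp σ W) = Nat.card W := fun σ τ W =>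
    ⟨(hMpb V₀ σ τ W W).1, (hMpb V₀ σ τ W W).2.1, (hMpb V₀ σ τ W W).2.2.1⟩
  have hinv : ∀ (σ : MulAut V₀) (W W' : Subgroup V₀), mp σ W = W' → mp σ⁻¹ W' = W :=
    fun σ W W' h => ((hMpb V₀ σ 1 W W').2.2.2.2.2.2.2.2.2.1).1 h
  have hmem : ∀ (σ : MulAut V₀) (W : Subgroup V₀) (v : V₀), v ∈ mp σ W ↔ σ⁻¹ v ∈ W :=
    fun σ W v => (hMpb V₀ σ 1 W W).2.2.2.1 v
  -- the orbits
  have horb : ∀ (W : Subgroup V₀), ∀ σ ∈ E₀, orbE E₀ (mp σ W) = orbE E₀ W := by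
    intro W σ hσ
    ext W'
    constructor
    · rintro ⟨τ, hτ, h⟩
      refine ⟨σ⁻¹ * τ, E₀.mul_mem (E₀.inv_mem hσ) hτ, ?_⟩
      rw [(hMp σ⁻¹ τ W').2.1, h]
      exact hinv σ W _ rfl
    · rintro ⟨τ, hτ, h⟩
      refine ⟨σ * τ, E₀.mul_mem hσ hτ, ?_⟩
      rw [(hMp σ τ W').2.1, h]
  have hone : ∀ W : Subgroup V₀, (orbE E₀ W).Nonempty := fun W =>
    ⟨W, 1, E₀.one_mem, (hMp 1 1 W).1⟩
  have hrs : ∀ W : Subgroup V₀, ∃ s ∈ E₀, mp s (repS (orbE E₀ W)) = W := fun W => repS_mem (hone W)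
  choose s hsE hs using hrs
  -- the characters
  have hχ : ∀ W : Subgroup V₀, ∃ χ : G → ℂ, W ∈ RL ℓ E₀ → nS E₀ W = ℓ - 1 → χ ∈ Ch B W ∧
      (∀ w ∈ W, nu B χ w = 1) ∧ ∀ σ ∈ E₀, mp σ W = W → ∀ t ∈ Tg B.i.range B.g,
      (∀ v, t * B.i v * t⁻¹ = B.i (σ v)) → (fun g => χ (t⁻¹ * g * t)) = χ := by
    intro W
    by_cases h : W ∈ RL ℓ E₀ ∧ nS E₀ W = ℓ - 1
    · obtain ⟨χ, h1, h2, h3⟩ := hFxc ℓ M hM hl2 V₀ G E₀ hFq B hSd W h.1 h.2
      exact ⟨χ, fun _ _ => ⟨h1, h2, h3⟩⟩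
    · exact ⟨0, fun h1 h2 => absurd ⟨h1, h2⟩ h⟩
  choose X hX using hχ
  have hrep : ∀ W : Subgroup V₀, W ∈ RL ℓ E₀ → nS E₀ W = ℓ - 1 →
      repS (orbE E₀ W) ∈ RL ℓ E₀ ∧ nS E₀ (repS (orbE E₀ W)) = ℓ - 1 := by
    intro W h1 h2
    have hn : nS E₀ W = nS E₀ (repS (orbE E₀ W)) := by
      have := ((hPrb ℓ V₀ E₀ hFq (repS (orbE E₀ W))).2.2.2.1 (s W) (hsE W)).1
      rwa [hs W] at this
    have hc : Nat.card W = Nat.card (repS (orbE E₀ W)) := by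
      have := (hMp (s W) 1 (repS (orbE E₀ W))).2.2
      rwa [hs W] at this
    exact ⟨⟨by rw [← hc]; exact h1.1, by rw [← hn]; exact h1.2⟩, by rw [← hn]; exact h2⟩
  refine ⟨fun W => ac B (s W) (X (repS (orbE E₀ W))), ?_, ?_⟩
  · intro W h1 h2
    obtain ⟨hr1, hr2⟩ := hrep W h1 h2
    obtain ⟨hx1, hx2, -⟩ := hX _ hr1 hr2
    obtain ⟨-, -, hc, -⟩ := hA (repS (orbE E₀ W)) (s W) (hsE W)
    obtain ⟨hc1, -, -, hc2, -⟩ := hc _ hx1
    refine ⟨?_, ?_⟩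
    · have := hc1
      rw [hs W] at this
      exact this
    · intro w hw
      have h3 : (s W)⁻¹ w ∈ repS (orbE E₀ W) := by
        rw [← hmem, hs W]
        exact hw
      have h4 := hc2 ((s W)⁻¹ w)
      rw [hx2 _ h3, MulAut.apply_inv_self] at h4
      exact h4
  · intro W h1 h2 σ hσ t ht htσ
    obtain ⟨hr1, hr2⟩ := hrep W h1 h2
    obtain ⟨-, -, hx3⟩ := hX _ hr1 hr2
    have hO := horb W σ hσ
    have hs' := hs (mp σ W)
    have hsE' := hsE (mp σ W)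
    obtain ⟨ha1, ha2⟩ := hA0 (s W) (hsE W)
    obtain ⟨hb1, hb2⟩ := hA0 (s (mp σ W)) hsE'
    show ac B (s (mp σ W)) (X (repS (orbE E₀ (mp σ W)))) =
      fun g => ac B (s W) (X (repS (orbE E₀ W))) (t⁻¹ * g * t)
    rw [hO] at hs' ⊢
    set s' := s (mp σ W) with hs'def
    have hE : s'⁻¹ * (σ * s W) ∈ E₀ :=
      E₀.mul_mem (E₀.inv_mem hsE') (E₀.mul_mem hσ (hsE W))
    have hfix : mp (s'⁻¹ * (σ * s W)) (repS (orbE E₀ W)) = repS (orbE E₀ W) := by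
      rw [(hMp s'⁻¹ (σ * s W) _).2.1, (hMp σ (s W) _).2.1, hs W]
      exact hinv _ _ _ hs'
    have hu := hx3 (s'⁻¹ * (σ * s W)) hE hfix ((tt B s')⁻¹ * (t * tt B (s W)))
      (Subgroup.mul_mem _ (Subgroup.inv_mem _ hb1) (Subgroup.mul_mem _ ht ha1)) (by
        intro v
        have e1 : (tt B s')⁻¹ * B.i (σ (s W v)) * tt B s' = B.i (s'⁻¹ (σ (s W v))) := by
          have := hb2 (s'⁻¹ (σ (s W v)))
          rw [MulAut.apply_inv_self] at this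
          rw [← this]
          group
        rw [MulAut.mul_apply, MulAut.mul_apply, ← e1, ← htσ, ← ha2]
        group)
    funext g
    have hg := congrFun hu ((tt B s')⁻¹ * g * tt B s')
    show X (repS (orbE E₀ W)) ((tt B s')⁻¹ * g * tt B s') =
      X (repS (orbE E₀ W)) ((tt B (s W))⁻¹ * (t⁻¹ * g * t) * tt B (s W))
    rw [← hg]
    show X (repS (orbE E₀ W)) (((tt B s')⁻¹ * (t * tt B (s W)))⁻¹ * ((tt B s')⁻¹ * g * tt B s') *
      ((tt B s')⁻¹ * (t * tt B (s W)))) = _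
    congr 1
    group

end Pool.Agent.PP.SE.H81
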